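import Pool.Agent.Helper738.KP.Cor

set_option autoImplicit false

namespace Pool.Agent.Results.MP_28f232_co.UnionDPlusFour

open MeasureTheory

/-- **The Kneser-Poulsen conjecture for unions of `d + 4` balls.**  For every dimension `d`, every
configuration `p` of `d + 4` points of Euclidean `d`-space, every contraction `q` of `p` and all
positive radii, the volume of the union of the closed balls centred at the points of `q` is at
most the volume of the union of the closed balls centred at the points of `p`. -/
theorem result :
    ∀ (d : ℕ) (p q : Fin (d + 4) → EuclideanSpace ℝ (Fin d)),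
      (∀ i j, dist (q i) (q j) ≤ dist (p i) (p j)) →
      ∀ r : Fin (d + 4) → ℝ, (∀ i, 0 < r i) →
        volume (⋃ i, Metric.closedBall (q i) (r i)) ≤
          volume (⋃ i, Metric.closedBall (p i) (r i)) := by
  intro d p q hpq r hr
  exact KP.union_of_setFn
    (KP.setFnIneq_of_card (ι := Fin (d + 4)) (J := Fin d) (by simp) p q hpq r hr)

end Pool.Agent.Results.MP_28f232_co.UnionDPlusFour
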